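import Mathlib

open Polynomial Filter Topology

namespace Pool.Agent.Results.MP_b61545_an.Half

/-- number of critical values -/
noncomputable def cv (p : ℂ[X]) : ℕ := ((fun z => p.eval z) '' {z | p.derivative.eval z = 0}).ncard

theorem growth (R : ℂ[X]) (m : ℕ) (h : R.natDegree ≤ m) : ∃ C : ℝ, 0 ≤ C ∧ ∀ z : ℂ, ‖R.eval z‖ ≤ C * (1 + ‖z‖) ^ m := by
  refine ⟨∑ i ∈ Finset.range (m + 1), ‖R.coeff i‖, by positivity, fun z => ?_⟩
  rw [eval_eq_sum_range' (Nat.lt_succ_of_le h), Finset.sum_mul]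
  refine (norm_sum_le _ _).trans (Finset.sum_le_sum fun i hi => ?_)
  rw [norm_mul, norm_pow]
  refine mul_le_mul_of_nonneg_left ?_ (norm_nonneg _)
  calc ‖z‖ ^ i ≤ (1 + ‖z‖) ^ i := pow_le_pow_left₀ (norm_nonneg _) (by linarith) _
    _ ≤ _ := pow_le_pow_right₀ (by linarith [norm_nonneg z]) (Nat.lt_succ_iff.1 (Finset.mem_range.1 hi))

theorem small (F : ℂ → ℂ) (c : ℂ) (h : ContinuousAt F c) (h0 : F c = 0) :
    ∃ r > 0, ∀ z, ‖z - c‖ < r → ‖F z‖ < 1 := by
  obtain ⟨r, hr, H⟩ := Metric.continuousAt_iff.1 h 1 one_pos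
  exact ⟨r, hr, fun z hz => by simpa [h0] using H (by simpa [dist_eq_norm] using hz)⟩

theorem main (k : ℕ) (hk : 1 ≤ k) : ∃ p : ℂ[X], p.natDegree = 2 * (k + 1) ∧ cv p ≤ 3 ∧
    ∀ z, p.eval z = z → ‖p.derivative.eval z‖ ≤ (k + 1 : ℝ) + 1 := by
  have hc : IsCoprime (X ^ (k+1) : ℂ[X]) ((X - C 1) ^ (k+1)) := by
    apply IsCoprime.pow; exact ⟨1, -1, by simp⟩
  obtain ⟨a0, b0, h0⟩ := hc
  have hm : ((X - C 1 : ℂ[X]) ^ (k+1)).Monic := (monic_X_sub_C 1).pow _
  have hmd : ((X - C 1 : ℂ[X]) ^ (k+1)).natDegree = k + 1 := by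
    rw [natDegree_pow, natDegree_X_sub_C, mul_one]
  obtain ⟨a, b, hab, ha⟩ : ∃ a b : ℂ[X], a * X ^ (k+1) + b * (X - C 1) ^ (k+1) = 1 ∧ a.natDegree < k + 1 := by
    refine ⟨a0 %ₘ (X - C 1) ^ (k+1), b0 + (a0 /ₘ (X - C 1) ^ (k+1)) * X ^ (k+1), ?_, ?_⟩
    · have := modByMonic_add_div a0 ((X - C 1 : ℂ[X]) ^ (k+1))
      linear_combination h0 + X ^ (k+1) * this
    · have := natDegree_modByMonic_lt a0 hm (by intro h; rw [h] at hmd; simp at hmd)
      rwa [hmd] at this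
  have hab' : ∀ z : ℂ, a.eval z * z ^ (k+1) + b.eval z * (z - 1) ^ (k+1) = 1 := by
    intro z; simpa using congrArg (eval z) hab
  obtain ⟨r0, hr0, H0⟩ := small (fun z => z ^ (k+1) * a.derivative.eval z +
      (k+1) * z / (z - 1) * (1 - z ^ k * a.eval z)) 0
    (by apply ContinuousAt.add (by fun_prop); apply ContinuousAt.mul _ (by fun_prop)
        exact ContinuousAt.div (by fun_prop) (by fun_prop) (by simp)) (by simp)
  obtain ⟨r1, hr1, H1⟩ := small (fun z => (k+1) * (z - 1) / z * (1 + (z - 1) ^ k * b.eval z) -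
      (z - 1) ^ (k+1) * b.derivative.eval z) 1
    (by apply ContinuousAt.sub _ (by fun_prop); apply ContinuousAt.mul _ (by fun_prop)
        exact ContinuousAt.div (by fun_prop) (by fun_prop) (by simp)) (by simp)
  obtain ⟨K, hK, HK⟩ := growth (X - a * X ^ (k+1)) (2 * (k+1)) (by
    refine (natDegree_sub_le _ _).trans (max_le (by simp; omega) (natDegree_mul_le.trans ?_))
    simp; omega)
  set L : ℝ := (1 + 1 / r0) * (1 + 2 / r1) with hL
  have hL0 : 0 < L := by positivity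
  set M : ℝ := K * L ^ (k+1) + 1 with hM
  have hM0 : 0 < M := by positivity
  have hMc : (M : ℂ) ≠ 0 := by exact_mod_cast hM0.ne'
  set p : ℂ[X] := X ^ (k+1) * (a + C (M : ℂ) * (X - C 1) ^ (k+1)) with hp
  have hp1 : p = 1 + (X - C 1) ^ (k+1) * (C (M : ℂ) * X ^ (k+1) - b) := by rw [hp]; linear_combination hab
  have hdeg : p.natDegree = 2 * (k+1) := by
    have e1 : (C (M : ℂ) * (X - C 1) ^ (k+1)).natDegree = k + 1 := by rw [natDegree_C_mul hMc, hmd]
    have e2 : (a + C (M : ℂ) * (X - C 1) ^ (k+1)).natDegree = k + 1 := by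
      rw [natDegree_add_eq_right_of_natDegree_lt (by rw [e1]; exact ha), e1]
    rw [hp, natDegree_mul (by simp) (by intro h; rw [h] at e2; simp at e2), e2]; simp; ring
  have d0 : ∀ z, p.derivative.eval z = (k+1) * z ^ k * (a.eval z + M * (z - 1) ^ (k+1)) +
      z ^ (k+1) * (a.derivative.eval z + M * ((k+1) * (z - 1) ^ k)) := by
    intro z; rw [hp]; simp [derivative_mul, derivative_pow]
  have d1 : ∀ z, p.derivative.eval z = (k+1) * (z - 1) ^ k * (M * z ^ (k+1) - b.eval z) +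
      (z - 1) ^ (k+1) * (M * ((k+1) * z ^ k) - b.derivative.eval z) := by
    intro z; rw [hp1]; simp [derivative_mul, derivative_pow]
  refine ⟨p, hdeg, ?_, ?_⟩
  · have hc2 : IsCoprime (X ^ k : ℂ[X]) ((X - C 1) ^ k) := by
      apply IsCoprime.pow; exact ⟨1, -1, by simp⟩
    have v0 : X ^ k ∣ p.derivative := by
      rw [hp, derivative_mul, derivative_pow]
      exact dvd_add (Dvd.dvd.mul_right (Dvd.dvd.mul_right (Dvd.dvd.mul_left (by simp) _) _) _)
        (Dvd.dvd.mul_right (pow_dvd_pow _ (by omega)) _)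
    have v1 : (X - C 1) ^ k ∣ p.derivative := by
      rw [hp1, derivative_add, derivative_one, zero_add, derivative_mul, derivative_pow]
      exact dvd_add (Dvd.dvd.mul_right (Dvd.dvd.mul_right (Dvd.dvd.mul_left (by simp) _) _) _)
        (Dvd.dvd.mul_right (pow_dvd_pow _ (by omega)) _)
    obtain ⟨q, hq⟩ := hc2.mul_dvd v0 v1
    have hd : p.derivative.natDegree = 2 * k + 1 := by rw [natDegree_derivative, hdeg]; omega
    have hq0 : q ≠ 0 := by rintro rfl; rw [hq] at hd; simp at hd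
    have hq1 : q.natDegree = 1 := by
      rw [hq, natDegree_mul (mul_ne_zero (by simp) (pow_ne_zero _ (X_sub_C_ne_zero 1))) hq0,
        natDegree_mul (by simp) (pow_ne_zero _ (X_sub_C_ne_zero 1)), natDegree_pow, natDegree_pow,
        natDegree_X_sub_C, natDegree_X] at hd
      omega
    have hs : {z | p.derivative.eval z = 0} ⊆ ((insert 0 (insert 1 q.roots.toFinset) : Finset ℂ) : Set ℂ) := by
      intro z hz
      simp only [hq, Set.mem_ofPred_eq, eval_mul, eval_pow, eval_X, eval_sub, eval_C, mul_eq_zero] at hz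
      rcases hz with (h | h) | h
      · simp [pow_eq_zero_iff (by omega : k ≠ 0) |>.1 h]
      · simp [sub_eq_zero.1 (pow_eq_zero_iff (by omega : k ≠ 0) |>.1 h)]
      · simp [hq0, h]
    have hf := (Finset.finite_toSet _).subset hs
    refine (Set.ncard_image_le hf).trans ((Set.ncard_le_ncard hs (Finset.finite_toSet _)).trans ?_)
    rw [Set.ncard_coe_finset]
    have := (Multiset.toFinset_card_le q.roots).trans (card_roots' q)
    have := Finset.card_insert_le (0 : ℂ) (insert 1 q.roots.toFinset)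
    have := Finset.card_insert_le (1 : ℂ) q.roots.toFinset
    omega
  · intro z hz
    have hk0 : k ≠ 0 := by omega
    by_cases z0 : z = 0
    · rw [d0, z0]; simp [hk0]; positivity
    by_cases z1 : z - 1 = 0
    · rw [d1, z1]; simp [hk0]; positivity
    have f0 : z ^ (k+1) * (a.eval z + M * (z - 1) ^ (k+1)) = z := by simpa [hp] using hz
    have fA : z ^ k * (a.eval z + M * (z - 1) ^ (k+1)) = 1 :=
      mul_left_cancel₀ z0 (by rw [mul_one]; linear_combination f0)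
    have fB : (z - 1) ^ k * (M * z ^ (k+1) - b.eval z) = 1 :=
      mul_left_cancel₀ z1 (by linear_combination f0 - hab' z)
    have nb : ∀ w : ℂ, ‖w‖ < 1 → ‖((k : ℂ) + 1) + w‖ ≤ (k + 1 : ℝ) + 1 := by
      intro w hw
      have := norm_add_le ((k : ℂ) + 1) w
      have e : ‖(k : ℂ) + 1‖ = k + 1 := by exact_mod_cast Complex.norm_natCast (k + 1)
      linarith
    by_cases c0 : ‖z - 0‖ < r0
    · convert nb _ (H0 z c0) using 2
      rw [d0]; field_simp
      linear_combination ((k : ℂ) + 1) * (2 * z - 1) * fA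
    by_cases c1 : ‖z - 1‖ < r1
    · convert nb _ (H1 z c1) using 2
      rw [d1]; field_simp
      linear_combination ((k : ℂ) + 1) * (2 * z - 1) * fB
    exfalso
    rw [sub_zero] at c0
    push Not at c0 c1
    have g0 : 1 + ‖z‖ ≤ (1 + 1 / r0) * ‖z‖ := by
      have : 1 ≤ 1 / r0 * ‖z‖ := by rw [one_div, inv_mul_eq_div, le_div_iff₀ hr0]; linarith
      linarith
    have g1 : 1 + ‖z‖ ≤ (1 + 2 / r1) * ‖z - 1‖ := by
      have : 2 ≤ 2 / r1 * ‖z - 1‖ := by rw [div_mul_eq_mul_div, le_div_iff₀ hr1]; linarith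
      have h2 : ‖z‖ ≤ ‖z - 1‖ + 1 := by simpa using norm_add_le (z - 1) 1
      linarith
    have g2 : (1 + ‖z‖) ^ 2 ≤ L * (‖z‖ * ‖z - 1‖) := by
      rw [sq, hL]
      calc _ ≤ ((1 + 1 / r0) * ‖z‖) * ((1 + 2 / r1) * ‖z - 1‖) :=
            mul_le_mul g0 g1 (by positivity) (by positivity)
        _ = _ := by ring
    have g3 := HK z
    have g4 : eval z (X - a * X ^ (k+1)) = M * (z * (z - 1)) ^ (k+1) := by
      simp only [eval_sub, eval_X, eval_mul, eval_pow, mul_pow]; linear_combination -f0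
    rw [g4, norm_mul, norm_pow, norm_mul, Complex.norm_real, Real.norm_eq_abs, abs_of_pos hM0, pow_mul] at g3
    have g5 := pow_le_pow_left₀ (by positivity) g2 (k+1)
    rw [mul_pow] at g5
    have g6 : 0 < (‖z‖ * ‖z - 1‖) ^ (k+1) := by
      have := norm_pos_iff.2 z0; have := norm_pos_iff.2 z1; positivity
    have g7 := mul_le_mul_of_nonneg_left g5 hK
    rw [hM] at g3
    nlinarith

theorem result :
    ∀ ε : ℝ, ε < 1 / 2 → ∀ δ : ℝ, 0 < δ → ∃ p : ℂ[X], 2 ≤ p.natDegree ∧ cv p ≤ 3 ∧ (cv p : ℝ) < δ * p.natDegree ∧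
      ∀ z, p.eval z = z → ‖p.derivative.eval z‖ < (1 - ε) * p.natDegree := by
  have h : ∀ n : ℕ, 2 ≤ n → ∃ p : ℂ[X], p.natDegree = 2 * n ∧ cv p ≤ 3 ∧
      ∀ z, p.eval z = z → ‖p.derivative.eval z‖ ≤ (n : ℝ) + 1 := by
    intro n hn
    obtain ⟨k, rfl⟩ : ∃ k, n = k + 1 := ⟨n - 1, by omega⟩
    simpa using main k (by omega)
  intro ε hε δ hδ
  obtain ⟨n, hn⟩ := exists_nat_gt (2 + 3 / δ + 1 / (1 - 2 * ε))
  have a1 : 0 < 3 / δ := by positivity
  have a0 : 0 < 1 - 2 * ε := by linarith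
  have a2 : 0 < 1 / (1 - 2 * ε) := by positivity
  have hn2 : 2 ≤ n := by exact_mod_cast (by linarith : (2 : ℝ) ≤ n)
  obtain ⟨p, p1, p2, p3⟩ := h n hn2
  have b1 : 3 < n * δ := (div_lt_iff₀ hδ).1 (by linarith)
  have b2 : 1 < n * (1 - 2 * ε) := (div_lt_iff₀ a0).1 (by linarith)
  refine ⟨p, by omega, p2, ?_, fun z hz => (p3 z hz).trans_lt ?_⟩
  · have : (cv p : ℝ) ≤ 3 := by exact_mod_cast p2
    rw [p1]; push_cast; nlinarith
  · rw [p1]; push_cast; nlinarith

end Pool.Agent.Results.MP_b61545_an.Half
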